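import Pool.Agent.T6.H32.HC.Und

/-!
# Equivalence up to Hurwitz moves and global conjugation is undecidable

The surface is the closed oriented surface `Σ` of genus six; mapping classes are outer
automorphisms of its fundamental group (Dehn, Nielsen, Baer). The input of an algorithm is a list of
names of positive Dehn twists, exactly as in `Pool/Agent/Y524H` (where Hurwitz equivalence without
global conjugation is treated, and where the formulas for the twists are checked). The group `Γ` of
the allowed conjugating elements is arbitrary: the subgroup generated by Lickorish's twists is the
mapping class group of `Σ`, the whole group allows orientation-reversing classes also, and `Γ = 1`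
gives Hurwitz equivalence.

Outline of the proof. Let `L`, `R` be the halves of genus three of `Σ`, `θ` the involution which
exchanges them, a product of eight positive twists, and `R₀ = θ θ`. For a finite set `S` of mapping
classes of `L` let `τ` be the product of `R₀` and of the `s R₀ s⁻¹`, `s ∈ S` or `s ∈ S S`. For a word
`w` in the free group on `b, d` let `γ_w` be the push of one foot of a handle of `L` along `w`. The
factorizations are `u_w = τ · γ_w R₀ γ_w⁻¹`.

(1) The group `H` generated by the twists of `τ` contains `[x, y]` for `x, y` in the group generated
by `S`. If `z` is in the normal closure of the relators `r`, `γ_r ∈ S`, then `γ_[z,b] ∈ H`, and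
conjugating the last block only, `u_[z,b]y` and `u_y` are Hurwitz equivalent.

(2) The property that there is a homomorphism from `π₁(Σ)` to a given group `M`, with
noncommutative image, which kills all vanishing cycles is invariant under Hurwitz moves and global
conjugation.

(3) A homomorphism which kills the vanishing cycles of `u_y` folds the two halves and is given by
the images of `b` and `d`, for which `y = 1`. We take `y = T b⁻¹ T⁻¹` for a word `T`, so `b = 1` and
the image is commutative.

(4) Let `x_0, ..., x_(m-1)` generate a finitely presented group `G` with undecidable word problem,
and `w ≠ 1` in `G`. There are explicit words `X_i`, `T` in `b, d`, independent of `w`, and an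
overgroup `M` of `G` with elements `b ≠ 1`, `d` such that `X_i(b, d) = x_i` and
`[w, b] = T(b, d) b T(b, d)⁻¹` in `M` (this is the proof of the Adian-Rabin theorem: amalgamated
products and HNN extensions). So for `z = w(X_0, ..., X_(m-1))` the word `[z, b] y` is trivial in
`M`, and `u_[z,b]y` has a homomorphism to `M` as in (2), and is not equivalent to `u_y`.
To see that it kills the vanishing cycles (a Dehn twist determines its curve), one uses
homomorphisms onto the free group of rank two, where centralizers are malnormal.
-/

set_option autoImplicit false

namespace Pool.Agent.Results.MP_1b0330_gt.GlobalConjUndecidable

open Pool.Agent.Y524H Pool.Agent.T6.H32.HC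

/-- In the mapping class group of the closed surface of genus six there is a factorization `τ` of
the identity into positive Dehn twists such that, for every group `Γ` of mapping classes, no
algorithm decides which factorizations of the identity into positive Dehn twists are equivalent to
`τ` up to Hurwitz moves and global conjugation by elements of `Γ`; in particular no algorithm
decides this equivalence for pairs of such factorizations. -/
theorem result : (∃ τ : List Entry, IsFactorization τ ∧ ∀ Γ : Subgroup OutPi,
    ¬ ∃ f : List Entry → Bool, Computable f ∧ ∀ x : List Entry, IsFactorization x →
      (f x = true ↔ ConjEquiv Γ (τ.map dehn) (x.map dehn))) ∧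
    ∀ Γ : Subgroup OutPi, ¬ ∃ f : List Entry × List Entry → Bool, Computable f ∧
      ∀ x y : List Entry, IsFactorization x → IsFactorization y →
        (f (x, y) = true ↔ ConjEquiv Γ (x.map dehn) (y.map dehn)) := by
  refine ⟨undecidable_fixed', ?_⟩
  rintro Γ ⟨f, hf, hfx⟩
  obtain ⟨τ, hτ, hn⟩ := undecidable_fixed'
  exact hn Γ ⟨fun x => f (τ, x), hf.comp (Computable.pair (Computable.const τ) Computable.id),
    fun x hx => hfx τ x hτ hx⟩

end Pool.Agent.Results.MP_1b0330_gt.GlobalConjUndecidable
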